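import Mathlib

/-!
Periods of the family of genus two curves `y² = x⁵ + s x` over the punctured `s`-line.
-/

set_option autoImplicit false

namespace Pool.Agent.H892Z.Per

open scoped Real

/-- The field of algebraic numbers inside the complex numbers. -/
abbrev Qbar : Type := algebraicClosure ℚ ℂ

/-- `(x, y)` is a closed path of class `C¹`, parametrised by `[0, 2π]`, on the affine curve
`y² = x⁵ + s x`, and `φ(t) dt` is the pull-back of the regular form `dx / y = 2 dy / (5 x⁴ + s)`. -/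
structure IsLoop (s : ℂ) (x y φ : ℝ → ℂ) : Prop where
  on_curve : ∀ t, y t ^ 2 = x t ^ 5 + s * x t
  closed_x : x (2 * π) = x 0
  closed_y : y (2 * π) = y 0
  smooth_x : ContDiff ℝ 1 x
  smooth_y : ContDiff ℝ 1 y
  cont : Continuous φ
  form_x : ∀ t, φ t * y t = deriv x t
  form_y : ∀ t, φ t * (5 * x t ^ 4 + s) = 2 * deriv y t

/-- `P` is a period matrix of the family over `U`: its rows are the integrals of the forms
`xⁱ dx / y`, `i = 0, …, 3`, along four loops in the fibres that vary continuously with `s`, and it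
is invertible. -/
def IsPeriodMap (U : Set ℂ) (P : ℂ → Matrix (Fin 4) (Fin 4) ℂ) : Prop :=
  ∃ x y φ : Fin 4 → ℂ → ℝ → ℂ,
    (∀ j, ContinuousOn (fun q : ℂ × ℝ => (x j q.1 q.2, y j q.1 q.2)) (U ×ˢ Set.univ)) ∧
    ∀ s ∈ U, (∀ j, IsLoop s (x j s) (y j s) (φ j s)) ∧
      (∀ j i, P s j i = ∫ t in (0 : ℝ)..(2 * π), x j s t ^ (i : ℕ) * φ j s t) ∧ (P s).det ≠ 0

/-- The coordinates of a point `(s, M)` of the product of the base with the space of matrices. -/
def coords (s : ℂ) (M : Matrix (Fin 4) (Fin 4) ℂ) : Option (Fin 4 × Fin 4) → ℂ :=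
  fun o => o.elim s fun ij => M ij.1 ij.2

/-- The fibre over `s₀` of the smallest closed subvariety of `S × GL₄` defined over the algebraic
numbers that contains the graph of `P` over `U`. -/
def graphClosureFibre (U : Set ℂ) (P : ℂ → Matrix (Fin 4) (Fin 4) ℂ) (s₀ : ℂ) :
    Set (Matrix (Fin 4) (Fin 4) ℂ) :=
  {M | M.det ≠ 0 ∧ ∀ Φ : MvPolynomial (Option (Fin 4 × Fin 4)) Qbar,
    (∀ s ∈ U, MvPolynomial.aeval (coords s (P s)) Φ = 0) → MvPolynomial.aeval (coords s₀ M) Φ = 0}

/-- The smallest closed subvariety of `GL₄` defined over the algebraic numbers that contains the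
point `M₀`. -/
def pointClosure (M₀ : Matrix (Fin 4) (Fin 4) ℂ) : Set (Matrix (Fin 4) (Fin 4) ℂ) :=
  {M | M.det ≠ 0 ∧ ∀ Ψ : MvPolynomial (Fin 4 × Fin 4) Qbar,
    MvPolynomial.aeval (fun ij : Fin 4 × Fin 4 => M₀ ij.1 ij.2) Ψ = 0 →
      MvPolynomial.aeval (fun ij : Fin 4 × Fin 4 => M ij.1 ij.2) Ψ = 0}

end Pool.Agent.H892Z.Per
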