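import Mathlib
import Pool.Agent.H892Z.Per.Defs

/-!
An explicit loop on `y² = x⁵ + x` and its periods.
-/

set_option autoImplicit false

namespace Pool.Agent.H892Z.Per

open Complex
open scoped Real

/-- the angle -/
noncomputable def th (t : ℝ) : ℝ := Real.arcsin (Real.sin t / √2)

theorem sqrt2_sq : (√2 : ℝ) ^ 2 = 2 := Real.sq_sqrt (by norm_num)

theorem sqrt2_pos : (0 : ℝ) < √2 := Real.sqrt_pos.2 (by norm_num)

theorem one_lt_sqrt2 : (1 : ℝ) < √2 := by
  rw [Real.lt_sqrt (by norm_num)]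
  norm_num

theorem arg_lt (t : ℝ) : Real.sin t / √2 < 1 := by
  rw [div_lt_one sqrt2_pos]
  exact (Real.sin_le_one t).trans_lt one_lt_sqrt2

theorem lt_arg (t : ℝ) : -1 < Real.sin t / √2 := by
  rw [lt_div_iff₀ sqrt2_pos]
  have := Real.neg_one_le_sin t
  have := one_lt_sqrt2
  linarith

theorem sin_th (t : ℝ) : Real.sin (th t) = Real.sin t / √2 :=
  Real.sin_arcsin (lt_arg t).le (arg_lt t).le

theorem th_abs (t : ℝ) : |th t| ≤ π / 4 := by
  have h : Real.arcsin (1 / √2) = π / 4 := by
    rw [← Real.arcsin_sin (x := π / 4) (by linarith [Real.pi_pos]) (by linarith [Real.pi_pos]),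
      Real.sin_pi_div_four]
    congr 1
    rw [div_eq_div_iff sqrt2_pos.ne' (by norm_num)]
    linarith [sqrt2_sq]
  rw [abs_le]
  constructor
  · rw [← h, ← Real.arcsin_neg]
    apply Real.arcsin_le_arcsin
    rw [← neg_div]
    exact div_le_div_of_nonneg_right (Real.neg_one_le_sin t) sqrt2_pos.le
  · rw [← h]
    apply Real.arcsin_le_arcsin
    exact div_le_div_of_nonneg_right (Real.sin_le_one t) sqrt2_pos.le

theorem cos_mul_pos {a : ℝ} (ha : |a| < 2) (t : ℝ) : 0 < Real.cos (a * th t) := by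
  apply Real.cos_pos_of_mem_Ioo
  have h1 : |a * th t| < π / 2 := by
    rw [abs_mul]
    have h2 := th_abs t
    have h3 := abs_nonneg a
    have := Real.pi_pos
    nlinarith
  exact abs_lt.1 h1

theorem cos_th_pos (t : ℝ) : 0 < Real.cos (th t) := by
  simpa using cos_mul_pos (a := 1) (by norm_num) t

theorem th_contDiff : ContDiff ℝ 1 th := by
  rw [contDiff_iff_contDiffAt]
  intro t
  exact (Real.contDiffAt_arcsin (lt_arg t).ne' (arg_lt t).ne).comp t
    ((Real.contDiff_sin.div_const _).contDiffAt)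

theorem th_deriv (t : ℝ) : HasDerivAt th (Real.cos t / (√2 * Real.cos (th t))) t := by
  have h := (Real.hasDerivAt_arcsin (lt_arg t).ne' (arg_lt t).ne).comp t
    ((Real.hasDerivAt_sin t).div_const √2)
  refine HasDerivAt.congr_deriv (f := th) h ?_
  unfold th
  rw [Real.cos_arcsin]
  ring

theorem th_symm (t : ℝ) : th (2 * π - t) = -th t := by
  unfold th
  rw [Real.sin_two_pi_sub, neg_div, Real.arcsin_neg]

theorem th_two_pi : th (2 * π) = th 0 := by
  unfold th
  rw [Real.sin_two_pi, Real.sin_zero]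

/-- the exponential of a multiple of the angle -/
noncomputable def ex (a : ℝ) (t : ℝ) : ℂ := exp (I * ((a * th t : ℝ) : ℂ))

theorem ex_ne (a t : ℝ) : ex a t ≠ 0 := exp_ne_zero _

theorem ex_add (a b t : ℝ) : ex (a + b) t = ex a t * ex b t := by
  unfold ex
  rw [← exp_add]
  congr 1
  push_cast
  ring

theorem ex_pow (a t : ℝ) (n : ℕ) : ex a t ^ n = ex (n * a) t := by
  unfold ex
  rw [← exp_nat_mul]
  congr 1
  push_cast
  ring

theorem ex_contDiff (a : ℝ) : ContDiff ℝ 1 (ex a) := by
  unfold ex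
  exact (contDiff_const.mul (ofRealCLM.contDiff.comp (contDiff_const.mul th_contDiff))).cexp

theorem ex_deriv (a t : ℝ) : HasDerivAt (ex a)
    (ex a t * (I * ((a * (Real.cos t / (√2 * Real.cos (th t))) : ℝ) : ℂ))) t :=
  ((((th_deriv t).const_mul a).ofReal_comp).const_mul I).cexp

theorem ex_two (t : ℝ) : ex 2 t =
    (Real.cos t : ℂ) ^ 2 + I * ((√2 : ℝ) * (Real.sin t : ℂ) * (Real.cos (th t) : ℂ)) := by
  unfold ex
  rw [mul_comm I, exp_mul_I, ← ofReal_cos, ← ofReal_sin, Real.cos_two_mul, Real.sin_two_mul,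
    Real.cos_sq', sin_th]
  have h1 : 2 * (1 - (Real.sin t / √2) ^ 2) - 1 = Real.cos t ^ 2 := by
    rw [div_pow, sqrt2_sq, Real.cos_sq']
    ring
  have h2 : 2 * (Real.sin t / √2) = √2 * Real.sin t := by
    rw [← mul_div_assoc, div_eq_iff sqrt2_pos.ne']
    linear_combination (-Real.sin t) * sqrt2_sq
  rw [h1, h2]
  push_cast
  ring

theorem ex_neg_two (t : ℝ) : ex (-2) t =
    (Real.cos t : ℂ) ^ 2 - I * ((√2 : ℝ) * (Real.sin t : ℂ) * (Real.cos (th t) : ℂ)) := by
  have h := ex_two (2 * π - t)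
  unfold ex at h ⊢
  rw [th_symm, Real.cos_two_pi_sub, Real.sin_two_pi_sub, Real.cos_neg] at h
  rw [show (-2 : ℝ) * th t = 2 * -th t by ring, h]
  push_cast
  ring

/-- the factor common to all integrands -/
noncomputable def wt (t : ℝ) : ℂ := I / (2 * (Real.cos (th t) : ℂ))

theorem cos_ne (t : ℝ) : (Real.cos (th t) : ℂ) ≠ 0 := by exact_mod_cast (cos_th_pos t).ne'

theorem wt_cont : Continuous wt := by
  unfold wt
  refine continuous_const.div (continuous_const.mul (continuous_ofReal.comp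
    (Real.continuous_cos.comp th_contDiff.continuous))) fun t => ?_
  exact mul_ne_zero two_ne_zero (cos_ne t)

theorem s2_sq : ((√2 : ℝ) : ℂ) ^ 2 = 2 := by exact_mod_cast sqrt2_sq

theorem s2_ne : ((√2 : ℝ) : ℂ) ≠ 0 := by exact_mod_cast sqrt2_pos.ne'

theorem hy_deriv (a t : ℝ) : HasDerivAt (fun t => ex a t * ((√2 * Real.cos t : ℝ) : ℂ))
    (((a + 1) * ex (a + 2) t + (a - 1) * ex (a + -2) t) * wt t) t := by
  have h := (ex_deriv a t).fun_mul (((Real.hasDerivAt_cos t).const_mul √2).ofReal_comp)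
  refine h.congr_deriv ?_
  rw [ex_add, ex_add, ex_two, ex_neg_two]
  unfold wt
  have h1 := cos_ne t
  have h2 := s2_ne
  push_cast at h1 ⊢
  field_simp
  linear_combination (-2 * ex a t * (√2 : ℝ) * Complex.sin t * Complex.cos (th t)) * I_sq

theorem base_loop : IsLoop 1 (ex 1) (fun t => ex (3 / 2) t * ((√2 * Real.cos t : ℝ) : ℂ))
    (fun t => ex (-1 / 2) t * wt t) where
  on_curve t := by
    rw [mul_pow, ex_pow, ex_pow, show ((5 : ℕ) : ℝ) * 1 = 3 + 2 by norm_num,
      show ((2 : ℕ) : ℝ) * (3 / 2) = 3 by norm_num, ex_add,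
      show ex 1 t = ex (3 + -2) t by norm_num, ex_add, ex_two, ex_neg_two]
    push_cast
    linear_combination (ex 3 t * Complex.cos t ^ 2) * s2_sq
  closed_x := by unfold ex; rw [th_two_pi]
  closed_y := by unfold ex; simp only [th_two_pi, Real.cos_two_pi, Real.cos_zero]
  smooth_x := ex_contDiff 1
  smooth_y := (ex_contDiff _).mul (ofRealCLM.contDiff.comp (contDiff_const.mul Real.contDiff_cos))
  cont := (ex_contDiff _).continuous.mul wt_cont
  form_x t := by
    rw [(ex_deriv 1 t).deriv, show ex 1 t = ex (-1 / 2 + 3 / 2) t by norm_num, ex_add]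
    unfold wt
    have h1 := cos_ne t
    have h2 := s2_ne
    push_cast at h1 ⊢
    field_simp
    linear_combination (ex (-(1 / 2)) t * ex (3 / 2) t * Complex.cos t) * s2_sq
  form_y t := by
    rw [(hy_deriv (3 / 2) t).deriv, ex_pow, show (3 / 2 : ℝ) + 2 = -1 / 2 + ((4 : ℕ) : ℝ) * 1 by
      norm_num, ex_add, show (3 / 2 : ℝ) + -2 = -1 / 2 by norm_num]
    push_cast
    ring

/-- the basic integrals -/
noncomputable def II (a : ℝ) : ℂ := ∫ t in (0 : ℝ)..(2 * π), ex a t * wt t

theorem II_neg (a : ℝ) : II (-a) = II a := by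
  unfold II
  have h := intervalIntegral.integral_comp_sub_left (a := 0) (b := 2 * π)
    (fun t => ex a t * wt t) (2 * π)
  rw [sub_self, sub_zero] at h
  rw [← h]
  refine intervalIntegral.integral_congr fun t _ => ?_
  simp only [ex, wt, th_symm, Real.cos_neg]
  congr 3
  push_cast
  ring

theorem II_ne {a : ℝ} (ha : |a| < 2) : II a ≠ 0 := by
  intro h
  have hc : Continuous fun t => ex a t * wt t := (ex_contDiff a).continuous.mul wt_cont
  have h1 : (II a).im = ∫ t in (0 : ℝ)..(2 * π), (ex a t * wt t).im := by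
    unfold II
    exact (imCLM.intervalIntegral_comp_comm (hc.intervalIntegrable _ _)).symm
  have h2 : ∀ t, (ex a t * wt t).im = Real.cos (a * th t) / (2 * Real.cos (th t)) := by
    intro t
    have h3 : wt t = ((1 / (2 * Real.cos (th t)) : ℝ) : ℂ) * I := by
      unfold wt
      push_cast
      ring
    rw [h3, ← mul_assoc, mul_I_im, mul_re, ofReal_re, ofReal_im, mul_zero, sub_zero]
    unfold ex
    rw [mul_comm I, exp_ofReal_mul_I_re]
    ring
  have h4 : 0 < ∫ t in (0 : ℝ)..(2 * π), (ex a t * wt t).im := by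
    refine intervalIntegral.intervalIntegral_pos_of_pos
      ((continuous_im.comp hc).intervalIntegrable _ _) (fun t => ?_) Real.two_pi_pos
    rw [h2]
    exact div_pos (cos_mul_pos ha t) (mul_pos two_pos (cos_th_pos t))
  rw [← h1, h] at h4
  simp at h4

theorem II_five : 3 * II (5 / 2) = II (3 / 2) := by
  have hc : ∀ a, Continuous fun t => ex a t * wt t := fun a =>
    (ex_contDiff a).continuous.mul wt_cont
  have h := intervalIntegral.integral_eq_sub_of_hasDerivAt (a := 0) (b := 2 * π)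
    (fun t _ => hy_deriv (1 / 2) t) (Continuous.intervalIntegrable (by
      exact ((continuous_const.mul (ex_contDiff _).continuous).add
        (continuous_const.mul (ex_contDiff _).continuous)).mul wt_cont) _ _)
  have h0 : ex (1 / 2) (2 * π) * ((√2 * Real.cos (2 * π) : ℝ) : ℂ) -
      ex (1 / 2) 0 * ((√2 * Real.cos 0 : ℝ) : ℂ) = 0 := by
    unfold ex
    simp only [th_two_pi, Real.cos_two_pi, Real.cos_zero, sub_self]
  rw [h0] at h
  have h1 : ∀ t, ((((1 / 2 : ℝ) : ℂ) + 1) * ex (1 / 2 + 2) t + (((1 / 2 : ℝ) : ℂ) - 1) *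
      ex (1 / 2 + -2) t) * wt t =
      (3 / 2 : ℂ) * (ex (5 / 2) t * wt t) - (1 / 2 : ℂ) * (ex (-(3 / 2)) t * wt t) := by
    intro t
    rw [show (1 / 2 : ℝ) + 2 = 5 / 2 by norm_num, show (1 / 2 : ℝ) + -2 = -(3 / 2) by norm_num]
    push_cast
    ring
  simp only [h1] at h
  have hc' : ∀ (c : ℂ) (a : ℝ), IntervalIntegrable (fun t => c * (ex a t * wt t))
      MeasureTheory.volume 0 (2 * π) := fun c a =>
    (continuous_const.mul (hc a) : Continuous fun t => c * (ex a t * wt t)).intervalIntegrable _ _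
  rw [intervalIntegral.integral_sub (hc' _ _) (hc' _ _), intervalIntegral.integral_const_mul,
    intervalIntegral.integral_const_mul] at h
  have h2 := II_neg (3 / 2)
  unfold II at h2 ⊢
  rw [h2] at h
  linear_combination 2 * h

/-- the periods of the basic loop -/
noncomputable def vv (i : Fin 4) : ℂ := II ((i : ℕ) - 1 / 2)

theorem vv_eq (i : Fin 4) :
    ∫ t in (0 : ℝ)..(2 * π), ex 1 t ^ (i : ℕ) * (ex (-1 / 2) t * wt t) = vv i := by
  unfold vv II
  refine intervalIntegral.integral_congr fun t _ => ?_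
  simp only [ex_pow, ← mul_assoc, ← ex_add]
  congr 2
  ring

theorem vv_01 : vv 0 = vv 1 := by
  unfold vv
  rw [← II_neg]
  congr 1
  norm_num

theorem vv_ne (i : Fin 4) : vv i ≠ 0 := by
  fin_cases i
  · exact II_ne (by norm_num [abs_lt])
  · exact II_ne (by norm_num [abs_lt])
  · exact II_ne (by norm_num [abs_lt])
  · have h := II_five
    have h2 : II (3 / 2) ≠ 0 := II_ne (by norm_num [abs_lt])
    intro h3
    have h4 : II (5 / 2) = 0 := by
      rw [← h3]
      unfold vv
      congr 1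
      norm_num
    rw [h4] at h
    exact h2 (by rw [← h]; ring)

theorem scale_loop {x y φ : ℝ → ℂ} (h : IsLoop 1 x y φ) (τ : ℂ) (hτ : τ ≠ 0) :
    IsLoop (τ ^ 8) (fun t => τ ^ 2 * x t) (fun t => τ ^ 5 * y t) (fun t => (τ ^ 3)⁻¹ * φ t) where
  on_curve t := by
    have := h.on_curve t
    linear_combination τ ^ 10 * this
  closed_x := by rw [h.closed_x]
  closed_y := by rw [h.closed_y]
  smooth_x := contDiff_const.mul h.smooth_x
  smooth_y := contDiff_const.mul h.smooth_y
  cont := continuous_const.mul h.cont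
  form_x t := by
    rw [deriv_const_mul_field, ← h.form_x t]
    field_simp
  form_y t := by
    rw [deriv_const_mul_field]
    have := h.form_y t
    field_simp
    linear_combination this

end Pool.Agent.H892Z.Per
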