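import Mathlib
import Pool.Agent.H892Z.Per.Loop

/-!
The period matrix of `y² = x⁵ + s x` and the two closures.
-/

set_option autoImplicit false

namespace Pool.Agent.H892Z.Per

open Complex
open scoped Real Topology

/-- a primitive eighth root of unity -/
noncomputable def ze : ℂ := exp (π / 4 * I)

theorem ze_sq : ze ^ 2 = I := by
  unfold ze
  rw [← exp_nat_mul, show ((2 : ℕ) : ℂ) * (π / 4 * I) = π / 2 * I by push_cast; ring,
    exp_pi_div_two_mul_I]

theorem ze_ne : ze ≠ 0 := exp_ne_zero _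

theorem ze_eight : ze ^ 8 = 1 := by
  rw [show 8 = 2 * 4 from rfl, pow_mul, ze_sq, I_pow_four]

/-- the matrix of periods in terms of an eighth root of the parameter -/
noncomputable def QQ (ρ : ℂ) : Matrix (Fin 4) (Fin 4) ℂ :=
  fun j i => ((ze ^ (j : ℕ) * ρ) ^ 2) ^ (i : ℕ) * (((ze ^ (j : ℕ) * ρ) ^ 3)⁻¹ * vv i)

theorem I_pow_inj : Function.Injective fun j : Fin 4 => I ^ (j : ℕ) := by
  intro a b h
  have hp : IsPrimitiveRoot I 4 := Complex.isPrimitiveRoot_I
  exact Fin.ext (hp.pow_inj a.2 b.2 h)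

theorem QQ_det {ρ : ℂ} (hρ : ρ ≠ 0) : (QQ ρ).det ≠ 0 := by
  have h : QQ ρ = Matrix.diagonal (fun j : Fin 4 => ((ze ^ (j : ℕ) * ρ) ^ 3)⁻¹) *
      Matrix.vandermonde (fun j : Fin 4 => (ze ^ (j : ℕ) * ρ) ^ 2) * Matrix.diagonal vv := by
    ext j i
    rw [Matrix.mul_diagonal, Matrix.diagonal_mul, Matrix.vandermonde_apply]
    unfold QQ
    ring
  rw [h, Matrix.det_mul, Matrix.det_mul, Matrix.det_diagonal, Matrix.det_diagonal]
  refine mul_ne_zero (mul_ne_zero ?_ ?_) ?_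
  · exact Finset.prod_ne_zero_iff.2 fun j _ =>
      inv_ne_zero (pow_ne_zero _ (mul_ne_zero (pow_ne_zero _ ze_ne) hρ))
  · rw [Matrix.det_vandermonde_ne_zero_iff]
    intro a b hab
    apply I_pow_inj
    have h1 : ∀ j : Fin 4, (ze ^ (j : ℕ) * ρ) ^ 2 = I ^ (j : ℕ) * ρ ^ 2 := by
      intro j
      rw [mul_pow, ← pow_mul, mul_comm (j : ℕ) 2, pow_mul, ze_sq]
    simp only [h1] at hab
    exact mul_right_cancel₀ (pow_ne_zero 2 hρ) hab
  · exact Finset.prod_ne_zero_iff.2 fun i _ => vv_ne i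

/-- the principal eighth root -/
noncomputable def rt (s : ℂ) : ℂ := exp (log s / 8)

theorem rt_ne (s : ℂ) : rt s ≠ 0 := exp_ne_zero _

theorem rt_pow {s : ℂ} (hs : s ≠ 0) : rt s ^ 8 = s := by
  unfold rt
  rw [← exp_nat_mul]
  convert exp_log hs using 2
  push_cast
  ring

theorem rt_diff : DifferentiableOn ℂ rt slitPlane := fun _ hs =>
  (((differentiableAt_log hs).div_const 8).cexp).differentiableWithinAt

theorem QQ_diff {ρ : ℂ → ℂ} {s : ℂ} (h : DifferentiableAt ℂ ρ s) (h0 : ρ s ≠ 0) (j i : Fin 4) :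
    DifferentiableAt ℂ (fun u => QQ (ρ u) j i) s := by
  unfold QQ
  have h1 : DifferentiableAt ℂ (fun u => ze ^ (j : ℕ) * ρ u) s := h.const_mul _
  exact ((h1.fun_pow 2).fun_pow _).fun_mul ((((h1.fun_pow 3).fun_inv
    (pow_ne_zero _ (mul_ne_zero (pow_ne_zero _ ze_ne) h0)))).mul_const _)

theorem isPeriodMap : IsPeriodMap slitPlane fun s => QQ (rt s) := by
  refine ⟨fun j s t => (ze ^ (j : ℕ) * rt s) ^ 2 * ex 1 t,
    fun j s t => (ze ^ (j : ℕ) * rt s) ^ 5 * (ex (3 / 2) t * ((√2 * Real.cos t : ℝ) : ℂ)),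
    fun j s t => ((ze ^ (j : ℕ) * rt s) ^ 3)⁻¹ * (ex (-1 / 2) t * wt t), fun j => ?_,
    fun s hs => ⟨fun j => ?_, fun j i => ?_, QQ_det (rt_ne s)⟩⟩
  · have h1 : ContinuousOn (fun q : ℂ × ℝ => ze ^ (j : ℕ) * rt q.1) (slitPlane ×ˢ Set.univ) :=
      continuousOn_const.mul (rt_diff.continuousOn.comp continuousOn_fst fun q hq => hq.1)
    refine ContinuousOn.prodMk ((h1.pow 2).mul ?_) ((h1.pow 5).mul ?_)
    · exact (base_loop.smooth_x.continuous.comp continuous_snd).continuousOn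
    · exact (base_loop.smooth_y.continuous.comp continuous_snd).continuousOn
  · have h := scale_loop base_loop (ze ^ (j : ℕ) * rt s)
      (mul_ne_zero (pow_ne_zero _ ze_ne) (rt_ne s))
    rw [mul_pow _ _ 8, ← pow_mul, mul_comm (j : ℕ) 8, pow_mul, ze_eight, one_pow, one_mul,
      rt_pow (slitPlane_ne_zero hs)] at h
    exact h
  · unfold QQ
    beta_reduce
    rw [← vv_eq, ← intervalIntegral.integral_const_mul, ← intervalIntegral.integral_const_mul]
    refine intervalIntegral.integral_congr fun t _ => ?_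
    simp only [mul_pow]
    ring

theorem aeval_diff (Φ : MvPolynomial (Option (Fin 4 × Fin 4)) Qbar) :
    Differentiable ℂ fun u : ℂ => MvPolynomial.aeval (coords (exp (8 * u)) (QQ (exp u))) Φ := by
  induction Φ using MvPolynomial.induction_on with
  | C a => simp only [MvPolynomial.aeval_C]; exact differentiable_const _
  | add p q hp hq => simp only [map_add]; exact hp.fun_add hq
  | mul_X p o hp =>
    simp only [map_mul, MvPolynomial.aeval_X]
    refine hp.fun_mul ?_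
    cases o with
    | none => exact (differentiable_id.const_mul 8).cexp
    | some ij => exact fun u => QQ_diff (differentiable_exp u) (exp_ne_zero u) ij.1 ij.2

theorem branch_mem {U : Set ℂ} (hU : U ∈ 𝓝 (1 : ℂ)) (u : ℂ) :
    QQ (exp u) ∈ graphClosureFibre U (fun s => QQ (rt s)) (exp (8 * u)) := by
  refine ⟨QQ_det (exp_ne_zero u), fun Φ hΦ => ?_⟩
  have ha : AnalyticOnNhd ℂ
      (fun u : ℂ => MvPolynomial.aeval (coords (exp (8 * u)) (QQ (exp u))) Φ) Set.univ :=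
    fun z _ => (aeval_diff Φ).analyticAt z
  have hc : Continuous fun u : ℂ => exp (8 * u) := by fun_prop
  have h1 : ∀ᶠ u in 𝓝 (0 : ℂ), exp (8 * u) ∈ U := by
    apply hc.continuousAt.preimage_mem_nhds
    simpa using hU
  have h2 : ∀ᶠ u in 𝓝 (0 : ℂ), (8 * u).im ∈ Set.Ioo (-π) π := by
    have hc2 : Continuous fun u : ℂ => (8 * u).im := by fun_prop
    apply hc2.continuousAt.preimage_mem_nhds
    apply Ioo_mem_nhds <;> simp [Real.pi_pos]
  have h3 : (fun u : ℂ => MvPolynomial.aeval (coords (exp (8 * u)) (QQ (exp u))) Φ) =ᶠ[𝓝 0] 0 := by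
    filter_upwards [h1, h2] with v hv1 hv2
    have h4 := hΦ _ hv1
    have h5 : rt (exp (8 * v)) = exp v := by
      unfold rt
      rw [log_exp hv2.1 hv2.2.le]
      congr 1
      ring
    simp only [h5] at h4
    exact h4
  exact ha.eqOn_zero_of_preconnected_of_eventuallyEq_zero isPreconnected_univ (Set.mem_univ 0) h3
    (Set.mem_univ u)

theorem point_subset (U : Set ℂ) (P : ℂ → Matrix (Fin 4) (Fin 4) ℂ) {s₀ : ℂ} (hs : s₀ ∈ U)
    (ha : IsAlgebraic ℚ s₀) : pointClosure (P s₀) ⊆ graphClosureFibre U P s₀ := by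
  rintro M ⟨hM, h⟩
  refine ⟨hM, fun Φ hΦ => ?_⟩
  let a : Qbar := ⟨s₀, mem_algebraicClosure_iff.2 ha⟩
  let g : Option (Fin 4 × Fin 4) → MvPolynomial (Fin 4 × Fin 4) Qbar :=
    fun o => o.elim (MvPolynomial.C a) MvPolynomial.X
  have key : ∀ N : Matrix (Fin 4) (Fin 4) ℂ,
      MvPolynomial.aeval (fun ij : Fin 4 × Fin 4 => N ij.1 ij.2) (MvPolynomial.aeval g Φ) =
        MvPolynomial.aeval (coords s₀ N) Φ := by
    intro N
    rw [← AlgHom.comp_apply, MvPolynomial.comp_aeval]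
    congr 2
    funext o
    cases o with
    | none => simp [g, coords, a]
    | some ij => simp [g, coords]
  rw [← key]
  apply h
  rw [key]
  exact hΦ s₀ hs

theorem not_mem_point {ρ : ℂ} (h0 : ρ ≠ 0) (ha : IsAlgebraic ℚ (ρ ^ 8)) :
    QQ (I * ρ) ∉ pointClosure (QQ ρ) := by
  rintro ⟨-, h⟩
  have hb : IsAlgebraic ℚ (ρ ^ 2) := by
    refine IsAlgebraic.of_pow (n := 4) (by norm_num) ?_
    rwa [← pow_mul]
  let a : Qbar := ⟨ρ ^ 2, mem_algebraicClosure_iff.2 hb⟩
  have h1 := h (MvPolynomial.C a * MvPolynomial.X (0, 0) - MvPolynomial.X (0, 1)) (by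
    simp [a, QQ, vv_01])
  simp only [map_sub, map_mul, MvPolynomial.aeval_C, MvPolynomial.aeval_X, QQ, vv_01] at h1
  have h2 : (algebraMap Qbar ℂ) a = ρ ^ 2 := rfl
  rw [h2] at h1
  simp only [Fin.val_zero, Fin.val_one, pow_zero, pow_one, one_mul] at h1
  have h3 : (2 * ρ ^ 2) * (((I * ρ) ^ 3)⁻¹ * vv 1) = 0 := by
    linear_combination h1 + (ρ ^ 2 * (((I * ρ) ^ 3)⁻¹ * vv 1)) * I_sq
  exact mul_ne_zero (mul_ne_zero two_ne_zero (pow_ne_zero _ h0))
    (mul_ne_zero (inv_ne_zero (pow_ne_zero _ (mul_ne_zero I_ne_zero h0))) (vv_ne 1)) h3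

theorem strict {s₀ : ℂ} (hs : s₀ ∈ slitPlane) (ha : IsAlgebraic ℚ s₀) :
    pointClosure (QQ (rt s₀)) ⊂ graphClosureFibre slitPlane (fun s => QQ (rt s)) s₀ := by
  have h0 := slitPlane_ne_zero hs
  refine ⟨point_subset slitPlane (fun s => QQ (rt s)) hs ha, fun h => ?_⟩
  have h1 := branch_mem (isOpen_slitPlane.mem_nhds one_mem_slitPlane) (π / 2 * I + log s₀ / 8)
  have h2 : exp (π / 2 * I + log s₀ / 8) = I * rt s₀ := by
    rw [exp_add, exp_pi_div_two_mul_I]
    rfl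
  have h3 : exp (8 * (π / 2 * I + log s₀ / 8)) = s₀ := by
    have := exp_nat_mul (π / 2 * I + log s₀ / 8) 8
    push_cast at this
    rw [this, h2, mul_pow, rt_pow h0, show 8 = 4 * 2 from rfl, pow_mul, I_pow_four, one_pow,
      one_mul]
  rw [h2, h3] at h1
  exact not_mem_point (rt_ne s₀) (by rwa [rt_pow h0]) (h h1)

end Pool.Agent.H892Z.Per
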