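import Mathlib
import Pool.Agent.H892Z.Per.Main

/-!
A linear relation with rational coefficients at the fourth powers of positive rationals.
-/

set_option autoImplicit false

namespace Pool.Agent.H892Z.Per

open Complex Polynomial
open scoped Real Topology

theorem quintic_separable (s : ℂ) (hs : s ≠ 0) : (X ^ 5 + C s * X : ℂ[X]).Separable := by
  have h1 : (C s⁻¹ : ℂ[X]) * C s = 1 := by rw [← C_mul, inv_mul_cancel₀ hs, C_1]
  have h2 : (C (4 : ℂ)⁻¹ : ℂ[X]) * 4 = 1 := by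
    rw [show (4 : ℂ[X]) = C 4 from rfl, ← C_mul, inv_mul_cancel₀ (by norm_num), C_1]
  have h3 : derivative (X ^ 5 + C s * X : ℂ[X]) = 5 * X ^ 4 + C s := by
    simp
    rw [show (C 4 : ℂ[X]) = 4 from rfl]
    norm_num
  refine ⟨-25 * C (4 : ℂ)⁻¹ * C s⁻¹ ^ 2 * X ^ 3,
    C s⁻¹ + 5 * C (4 : ℂ)⁻¹ * C s⁻¹ ^ 2 * X ^ 4, ?_⟩
  rw [h3]
  linear_combination (1 - 20 * C (4 : ℂ)⁻¹ * C s⁻¹ * X ^ 4) * h1 - (5 * C s⁻¹ * X ^ 4) * h2

theorem fibres_iso (s s' : ℂ) (hs : s ≠ 0) (hs' : s' ≠ 0) : ∃ l m : ℂ, l ≠ 0 ∧ m ≠ 0 ∧ ∀ x y : ℂ,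
    y ^ 2 = x ^ 5 + s * x ↔ (m * y) ^ 2 = (l * x) ^ 5 + s' * (l * x) := by
  have h0 := rt_ne (s' / s)
  have h1 := rt_pow (div_ne_zero hs' hs)
  have h2 : s' = rt (s' / s) ^ 8 * s := by rw [h1]; field_simp
  refine ⟨rt (s' / s) ^ 2, rt (s' / s) ^ 5, pow_ne_zero _ h0, pow_ne_zero _ h0, fun x y => ?_⟩
  generalize rt (s' / s) = τ at h0 h2
  subst h2
  constructor
  · intro h
    linear_combination τ ^ 10 * h
  · intro h
    apply mul_left_cancel₀ (pow_ne_zero 10 h0)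
    linear_combination h

theorem rt_sq {t : ℝ} (ht : 0 < t) : rt ((t : ℂ) ^ 4) ^ 2 = t := by
  unfold rt
  rw [← exp_nat_mul, ← ofReal_pow, ← ofReal_log (pow_pos ht 4).le, Real.log_pow]
  rw [show ((2 : ℕ) : ℂ) * ((((4 : ℕ) * Real.log t : ℝ) : ℂ) / 8) = (Real.log t : ℝ) by
    push_cast; ring, ← ofReal_exp, Real.exp_log ht]

theorem other_mem {s₀ : ℂ} (hs : s₀ ∈ slitPlane) :
    QQ (I * rt s₀) ∈ graphClosureFibre slitPlane (fun s => QQ (rt s)) s₀ := by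
  have h0 := slitPlane_ne_zero hs
  have h1 := branch_mem (isOpen_slitPlane.mem_nhds one_mem_slitPlane) (π / 2 * I + log s₀ / 8)
  have h2 : exp (π / 2 * I + log s₀ / 8) = I * rt s₀ := by
    rw [exp_add, exp_pi_div_two_mul_I]
    rfl
  have h3 : exp (8 * (π / 2 * I + log s₀ / 8)) = s₀ := by
    have := exp_nat_mul (π / 2 * I + log s₀ / 8) 8
    push_cast at this
    rw [this, h2, mul_pow, rt_pow h0, show 8 = 4 * 2 from rfl, pow_mul, I_pow_four, one_pow,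
      one_mul]
  rwa [h2, h3] at h1

theorem linear_relation (t : ℚ) (ht : 0 < t) : ∃ Ψ : MvPolynomial (Fin 4 × Fin 4) ℚ,
    Ψ.totalDegree ≤ 1 ∧
    (∀ M ∈ pointClosure (QQ (rt ((t : ℂ) ^ 4))),
      MvPolynomial.aeval (fun ij : Fin 4 × Fin 4 => M ij.1 ij.2) Ψ = 0) ∧
    ∃ M ∈ graphClosureFibre slitPlane (fun s => QQ (rt s)) ((t : ℂ) ^ 4),
      MvPolynomial.aeval (fun ij : Fin 4 × Fin 4 => M ij.1 ij.2) Ψ ≠ 0 := by
  have ht' : (0 : ℝ) < t := by exact_mod_cast ht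
  have h2 : rt ((t : ℂ) ^ 4) ^ 2 = t := by
    have := rt_sq ht'
    rwa [ofReal_ratCast] at this
  have hs : (t : ℂ) ^ 4 ∈ slitPlane := by
    rw [← ofReal_ratCast, ← ofReal_pow]
    exact ofReal_mem_slitPlane.2 (pow_pos ht' 4)
  have h0 := rt_ne ((t : ℂ) ^ 4)
  refine ⟨MvPolynomial.C t * MvPolynomial.X (0, 0) - MvPolynomial.X (0, 1), ?_, ?_,
    QQ (I * rt ((t : ℂ) ^ 4)), other_mem hs, ?_⟩
  · refine (MvPolynomial.totalDegree_sub _ _).trans (max_le ?_ ?_)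
    · refine (MvPolynomial.totalDegree_mul _ _).trans ?_
      rw [MvPolynomial.totalDegree_C, MvPolynomial.totalDegree_X]
    · rw [MvPolynomial.totalDegree_X]
  · rintro M ⟨-, h⟩
    have h1 := h (MvPolynomial.C (t : Qbar) * MvPolynomial.X (0, 0) - MvPolynomial.X (0, 1)) (by
      simp [QQ, vv_01, h2])
    simpa using h1
  · intro h1
    simp only [map_sub, map_mul, MvPolynomial.aeval_C, MvPolynomial.aeval_X, QQ, vv_01,
      eq_ratCast] at h1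
    generalize rt ((t : ℂ) ^ 4) = ρ at h0 h1 h2
    rw [← h2] at h1
    simp only [Fin.val_zero, Fin.val_one, pow_zero, pow_one, one_mul] at h1
    have h3 : (2 * ρ ^ 2) * (((I * ρ) ^ 3)⁻¹ * vv 1) = 0 := by
      linear_combination h1 + (ρ ^ 2 * (((I * ρ) ^ 3)⁻¹ * vv 1)) * I_sq
    exact mul_ne_zero (mul_ne_zero two_ne_zero (pow_ne_zero _ h0))
      (mul_ne_zero (inv_ne_zero (pow_ne_zero _ (mul_ne_zero I_ne_zero h0))) (vv_ne 1)) h3

end Pool.Agent.H892Z.Per
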